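import Pool.Agent.R943.DN.Ray

/-!
# MP_591151_lc: Finite distinguishing number versus uncountable Borel distinguishing number

The answer to the question is yes: there is a Borel graph with a finite distinguishing number (at
most `5`) whose Borel distinguishing number is the cardinality of the continuum.

The graph: the vertices are the sequences `x ∈ 2 ^ ℕ`, and `x` is adjacent to `y` if `x` and `y` differ
exactly at the elements of a finite set which belongs to a certain family `S` of finite
sets. The connected components are the classes of `E_0`, and each of them is isomorphic to the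
countable random graph (the Rado graph); moreover, if `A` and `B` are disjoint finite sets of vertices
of a component, then the vertices of the component which are adjacent to all elements of `A` and to
no element of `B` are dense in `2 ^ ℕ`.

Let `c` be a Borel map to a countable set. By the property of Baire, in a suitable component the
vertices of the color of a given vertex are the elements of an open set, and a back-and-forth
argument gives a nontrivial automorphism of the component which preserves the colors. On the other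
hand, the Rado graph has an induced ray that separates the other vertices; three colors on this ray
and a further color for its complement give rigid colorings, and one more bit at each vertex
of the ray makes them pairwise non-isomorphic.
-/

namespace Pool.Agent.Results.MP_591151_lc.FiniteVersusContinuum

open Cardinal Topology
open scoped symmDiff

/-- A map `c : X → I` is distinguishing for the graph `Γ` on `X` if for each automorphism of `Γ`
different from the identity there is a vertex `x` such that `x` and its image have different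
colors. -/
def Distinguishing {X I : Type} (Γ : SimpleGraph X) (c : X → I) : Prop :=
  ∀ φ : Γ ≃g Γ, (∃ x, φ x ≠ x) → ∃ x, c x ≠ c (φ x)

/-- The distinguishing number `D`: the least cardinality of a set `I` for which there is a
distinguishing map `c : X → I` (the identity of `X` is an example of such a map). -/
noncomputable def distNumber {X : Type} (Γ : SimpleGraph X) : Cardinal.{0} :=
  sInf {κ | ∃ (I : Type) (c : X → I), #I = κ ∧ Distinguishing Γ c}

/-- The Borel distinguishing number `D_B`: the least cardinality of a standard Borel space `I` for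
which there is a Borel distinguishing map `c : X → I`. -/
noncomputable def borelDistNumber {X : Type} [MeasurableSpace X] (Γ : SimpleGraph X) :
    Cardinal.{0} :=
  sInf {κ | ∃ (I : Type) (_ : MeasurableSpace I) (_ : StandardBorelSpace I) (c : X → I),
    #I = κ ∧ Measurable c ∧ Distinguishing Γ c}

open Pool.Agent.R943.DN

/-! ### The graph -/

/-- The sequence `x`, changed at the elements of `F`. -/
def fl (F : Finset ℕ) (x : ℕ → Bool) : ℕ → Bool := fun n => xor (x n) (decide (n ∈ F))

theorem fl_fl (F H : Finset ℕ) (x : ℕ → Bool) : fl F (fl H x) = fl (F ∆ H) x := by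
  funext n
  by_cases h1 : n ∈ F <;> by_cases h2 : n ∈ H <;> simp [fl, Finset.mem_symmDiff, h1, h2]

theorem fl_empty (x : ℕ → Bool) : fl ∅ x = x := by
  funext n; simp [fl]

theorem fl_self (F : Finset ℕ) (x : ℕ → Bool) : fl F (fl F x) = x := by
  rw [fl_fl, symmDiff_self]; exact fl_empty x

theorem fl_inj {F H : Finset ℕ} {x : ℕ → Bool} (h : fl F x = fl H x) : F = H := by
  ext n
  have h1 := congrFun h n
  unfold fl at h1
  by_cases hF : n ∈ F <;> by_cases hH : n ∈ H <;> simp [hF, hH] at h1 ⊢

/-- The graph. -/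
def Gr : SimpleGraph (ℕ → Bool) where
  Adj x y := ∃ F ∈ S, y = fl F x
  symm := ⟨by
    rintro x y ⟨F, hF, rfl⟩
    exact ⟨F, hF, (fl_self F x).symm⟩⟩
  loopless := ⟨by
    rintro x ⟨F, hF, h⟩
    have h1 : fl ∅ x = fl F x := by rw [fl_empty]; exact h
    exact empty_notMem_S (fl_inj h1 ▸ hF)⟩

theorem adj_fl {F H : Finset ℕ} {x : ℕ → Bool} : Gr.Adj (fl F x) (fl H x) ↔ G.Adj F H := by
  constructor
  · rintro ⟨K, hK, h⟩
    rw [fl_fl] at h
    have h1 := fl_inj h
    rw [adj_iff, h1, symmDiff_comm K F, symmDiff_symmDiff_cancel_left]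
    exact hK
  · intro h
    refine ⟨F ∆ H, h, ?_⟩
    rw [fl_fl, symmDiff_comm F H, symmDiff_assoc, symmDiff_self, symmDiff_bot]

theorem measurable_fl (F : Finset ℕ) : Measurable (fl F) := by
  apply measurable_pi_lambda
  intro n
  exact (measurable_of_countable (fun b : Bool => xor b (decide (n ∈ F)))).comp
    (measurable_pi_apply n)

theorem continuous_fl (F : Finset ℕ) : Continuous (fl F) := by
  apply continuous_pi
  intro n
  exact (continuous_of_discreteTopology (f := fun b : Bool => xor b (decide (n ∈ F)))).comp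
    (continuous_apply n)

/-- The homeomorphism `fl F`. -/
def flH (F : Finset ℕ) : (ℕ → Bool) ≃ₜ (ℕ → Bool) where
  toFun := fl F
  invFun := fl F
  left_inv := fl_self F
  right_inv := fl_self F
  continuous_toFun := continuous_fl F
  continuous_invFun := continuous_fl F

theorem measurableSet_adj : MeasurableSet {p : (ℕ → Bool) × (ℕ → Bool) | Gr.Adj p.1 p.2} := by
  have h : {p : (ℕ → Bool) × (ℕ → Bool) | Gr.Adj p.1 p.2}
      = ⋃ F : Finset ℕ, ⋃ _ : F ∈ S, {p | p.2 = fl F p.1} := by
    ext p
    simp [Gr]
  rw [h]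
  refine MeasurableSet.iUnion fun F => MeasurableSet.iUnion fun _ => ?_
  exact measurableSet_eq_fun measurable_snd ((measurable_fl F).comp measurable_fst)

/-! ### Borel maps to countable sets -/

theorem cylinder {U : Set (ℕ → Bool)} (hU : IsOpen U) {y : ℕ → Bool} (hy : y ∈ U) :
    ∃ k : ℕ, ∀ z : ℕ → Bool, (∀ i < k, z i = y i) → z ∈ U := by
  rw [isOpen_pi_iff] at hU
  obtain ⟨I, u, h1, h2⟩ := hU y hy
  refine ⟨I.sup id + 1, fun z hz => h2 ?_⟩
  intro i hi
  have h3 : i ≤ I.sup id := Finset.le_sup (f := id) hi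
  rw [hz i (by omega)]
  exact (h1 i hi).2

theorem exists_good {I : Type} [Countable I] [MeasurableSpace I] [MeasurableSingletonClass I]
    (c : (ℕ → Bool) → I) (hc : Measurable c) :
    ∃ x : ℕ → Bool, Ext G (fun F => c (fl F x)) := by
  have h1 : ∀ i : I, ∃ u : Set (ℕ → Bool), IsOpen u ∧ (c ⁻¹' {i}) =ᶠ[residual _] u := fun i =>
    (hc (measurableSet_singleton i)).residualEq_isOpen
  choose U hUo hU using h1
  have h2 : ∀ᶠ x in residual (ℕ → Bool), ∀ (F : Finset ℕ) (i : I),
      (fl F x ∈ c ⁻¹' {i} ↔ fl F x ∈ U i) := by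
    rw [eventually_countable_forall]
    intro F
    rw [eventually_countable_forall]
    intro i
    have h3 : Filter.Tendsto (fl F) (residual (ℕ → Bool)) (residual (ℕ → Bool)) :=
      tendsto_residual_of_isOpenMap (flH F).continuous (flH F).isOpenMap
    exact (h3.eventually (hU i)).mono fun x hx => iff_of_eq hx
  obtain ⟨x, hx⟩ := (dense_of_mem_residual h2).nonempty
  refine ⟨x, fun A B hAB v => ?_⟩
  have h4 : fl v x ∈ U (c (fl v x)) := (hx v (c (fl v x))).mp rfl
  obtain ⟨k, hk⟩ := cylinder (hUo _) h4
  obtain ⟨γ, h5, h6, h7, h8, h9⟩ := ext_prop A B hAB v k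
  refine ⟨γ, h6, h7, h8, h9, ?_⟩
  have h10 : fl γ x ∈ U (c (fl v x)) := by
    apply hk
    intro i hi
    simp only [fl]
    congr 1
    exact decide_eq_decide.mpr (h5 i hi)
  exact (hx γ (c (fl v x))).mpr h10

section lift

variable (x : ℕ → Bool)

open Classical in
/-- The extension of a map on the class of `x` by the identity. -/
noncomputable def lift (ψ : Finset ℕ → Finset ℕ) (y : ℕ → Bool) : ℕ → Bool :=
  if h : ∃ F, y = fl F x then fl (ψ h.choose) x else y

theorem lift_fl (ψ : Finset ℕ → Finset ℕ) (F : Finset ℕ) : lift x ψ (fl F x) = fl (ψ F) x := by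
  have h : ∃ H, fl F x = fl H x := ⟨F, rfl⟩
  have h1 : h.choose = F := (fl_inj h.choose_spec).symm
  unfold lift
  rw [dif_pos h, h1]

theorem lift_of_not (ψ : Finset ℕ → Finset ℕ) {y : ℕ → Bool} (h : ¬ ∃ F, y = fl F x) :
    lift x ψ y = y := by
  unfold lift
  rw [dif_neg h]

theorem lift_lift (ψ ψ' : Finset ℕ → Finset ℕ) (h : ∀ F, ψ' (ψ F) = F) (y : ℕ → Bool) :
    lift x ψ' (lift x ψ y) = y := by
  by_cases hy : ∃ F, y = fl F x
  · obtain ⟨F, rfl⟩ := hy
    rw [lift_fl, lift_fl, h]
  · rw [lift_of_not x ψ hy, lift_of_not x ψ' hy]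

/-- The extension of an automorphism. -/
noncomputable def liftIso (φ : G ≃g G) : Gr ≃g Gr where
  toFun := lift x φ
  invFun := lift x φ.symm
  left_inv := lift_lift x _ _ fun F => φ.symm_apply_apply F
  right_inv := lift_lift x _ _ fun F => φ.apply_symm_apply F
  map_rel_iff' := by
    intro y z
    show Gr.Adj (lift x φ y) (lift x φ z) ↔ Gr.Adj y z
    have hcl : ∀ y z, Gr.Adj y z → (∃ F, y = fl F x) → ∃ F, z = fl F x := by
      rintro y z ⟨K, -, rfl⟩ ⟨F, rfl⟩
      exact ⟨K ∆ F, fl_fl _ _ _⟩
    by_cases hy : ∃ F, y = fl F x <;> by_cases hz : ∃ F, z = fl F x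
    · obtain ⟨F, rfl⟩ := hy
      obtain ⟨H, rfl⟩ := hz
      rw [lift_fl, lift_fl, adj_fl, adj_fl]
      exact φ.map_rel_iff
    · refine iff_of_false (fun h => ?_) (fun h => hz (hcl y z h hy))
      obtain ⟨F, rfl⟩ := hy
      rw [lift_fl, lift_of_not x φ hz] at h
      exact hz (hcl _ _ h ⟨_, rfl⟩)
    · refine iff_of_false (fun h => ?_) (fun h => hy (hcl z y h.symm hz))
      obtain ⟨F, rfl⟩ := hz
      rw [lift_fl, lift_of_not x φ hy] at h
      exact hy (hcl _ _ h.symm ⟨_, rfl⟩)
    · rw [lift_of_not x φ hy, lift_of_not x φ hz]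

end lift

theorem not_distinguishing {I : Type} [Countable I] [MeasurableSpace I]
    [MeasurableSingletonClass I] (c : (ℕ → Bool) → I) (hc : Measurable c) :
    ¬ Distinguishing Gr c := by
  intro hd
  obtain ⟨x, hx⟩ := exists_good c hc
  obtain ⟨z, hz, -, -, -, hz'⟩ := hx {∅} ∅ (by simp) ∅
  obtain ⟨φ, h1, h2⟩ := exists_iso hx (v := ∅) (w := z) hz'.symm
  obtain ⟨y, hy⟩ := hd (liftIso x φ) ⟨x, fun h => hz (by
    have h3 : lift x φ x = x := h
    have h4 : lift x φ (fl ∅ x) = fl ∅ x := by rw [fl_empty]; exact h3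
    rw [lift_fl, h1] at h4
    exact Finset.mem_singleton.mpr (fl_inj h4))⟩
  apply hy
  show c y = c (lift x φ y)
  by_cases h : ∃ F, y = fl F x
  · obtain ⟨F, rfl⟩ := h
    rw [lift_fl]
    exact (h2 F).symm
  · rw [lift_of_not x φ h]

/-! ### A distinguishing map with five colors -/

/-- The classes of `E_0`. -/
def E0 : Setoid (ℕ → Bool) where
  r y z := ∃ F, z = fl F y
  iseqv :=
    { refl := fun y => ⟨∅, (fl_empty y).symm⟩
      symm := by
        rintro y z ⟨F, rfl⟩
        exact ⟨F, (fl_self F y).symm⟩
      trans := by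
        rintro y z w ⟨F, rfl⟩ ⟨H, rfl⟩
        exact ⟨H ∆ F, fl_fl _ _ _⟩ }

/-- The representative of a class. -/
noncomputable def rep (y : ℕ → Bool) : ℕ → Bool := (Quotient.mk E0 y).out

theorem exists_rep (y : ℕ → Bool) : ∃ F, y = fl F (rep y) :=
  Quotient.exact (s := E0) (Quotient.out_eq (Quotient.mk E0 y))

theorem rep_eq {y z : ℕ → Bool} (h : ∃ F, z = fl F y) : rep y = rep z := by
  unfold rep
  congr 1
  exact Quotient.sound (s := E0) h

/-- The position of a sequence in its class. -/
noncomputable def pos (y : ℕ → Bool) : Finset ℕ := (exists_rep y).choose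

theorem pos_spec (y : ℕ → Bool) : y = fl (pos y) (rep y) := (exists_rep y).choose_spec

/-- The distinguishing map. -/
noncomputable def col (y : ℕ → Bool) : Fin 5 := kap (rep y) (pos y)

theorem col_eq {x y : ℕ → Bool} {F : Finset ℕ} (hx : rep y = x) (hy : y = fl F x) :
    col y = kap x F := by
  have h1 : pos y = F := by
    apply fl_inj (x := x)
    rw [← hy, ← hx]
    exact (pos_spec y).symm
  unfold col
  rw [h1, hx]

theorem distinguishing_col : Distinguishing Gr col := by
  intro φ hφ
  by_contra hcon
  push Not at hcon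
  obtain ⟨y, hy⟩ := hφ
  apply hy
  -- the class of `y` and its image
  have hrep : ∀ F, rep (fl F (rep y)) = rep y := by
    intro F
    have h1 : rep (rep y) = rep y := (rep_eq (y := rep y) (z := y) (exists_rep y))
    rw [← rep_eq (y := rep y) (z := fl F (rep y)) ⟨F, rfl⟩]
    exact h1
  have hrep' : ∀ F, rep (φ (fl F (rep y))) = rep (φ y) := by
    intro F
    obtain ⟨γ, -, -, h1, -⟩ := ext_simple {F, pos y} ∅ (by simp)
    have h2 := h1 F (by simp)
    have h3 := h1 (pos y) (by simp)
    have h4 : Gr.Adj (φ (fl γ (rep y))) (φ (fl F (rep y))) := φ.map_rel_iff.mpr (adj_fl.mpr h2)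
    have h5 : Gr.Adj (φ (fl γ (rep y))) (φ y) := by
      conv_rhs => rw [pos_spec y]
      exact φ.map_rel_iff.mpr (adj_fl.mpr h3)
    obtain ⟨K, -, hK⟩ := h4
    obtain ⟨L, -, hL⟩ := h5
    rw [← rep_eq ⟨K, hK⟩, ← rep_eq ⟨L, hL⟩]
  have hψ : ∀ F, ∃ H, φ (fl F (rep y)) = fl H (rep (φ y)) := by
    intro F
    obtain ⟨H, hH⟩ := exists_rep (φ (fl F (rep y)))
    rw [hrep' F] at hH
    exact ⟨H, hH⟩
  choose ψ hψ using hψ
  obtain ⟨h1, h2⟩ := rigid (x := rep y) (x' := rep (φ y)) (ψ := ψ) (by
    intro F H h
    have h3 : φ (fl F (rep y)) = φ (fl H (rep y)) := by rw [hψ, hψ, h]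
    exact fl_inj (φ.injective h3)) (by
    intro F H h
    have h3 : Gr.Adj (φ (fl F (rep y))) (φ (fl H (rep y))) := φ.map_rel_iff.mpr (adj_fl.mpr h)
    rw [hψ, hψ, adj_fl] at h3
    exact h3) (by
    intro F
    rw [← col_eq (hrep' F) (hψ F), ← hcon, col_eq (hrep F) rfl])
  have h3 := hψ (pos y)
  rw [← pos_spec, h2, ← h1, ← pos_spec] at h3
  exact h3

/-- **Finite distinguishing number versus uncountable Borel distinguishing number.** There is a Borel
graph `Γ` on a standard Borel space with `D(Γ) ≤ 5` and `D_B(Γ) = 2 ^ ℵ₀`. -/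
theorem result : ∃ (X : Type) (_ : MeasurableSpace X) (_ : StandardBorelSpace X)
    (Γ : SimpleGraph X), MeasurableSet {p : X × X | Γ.Adj p.1 p.2} ∧
      distNumber Γ ≤ 5 ∧ borelDistNumber Γ = 𝔠 := by
  refine ⟨ℕ → Bool, inferInstance, inferInstance, Gr, measurableSet_adj, ?_, ?_⟩
  · exact csInf_le' ⟨Fin 5, col, by simp, distinguishing_col⟩
  · have hcard : #(ℕ → Bool) = 𝔠 := by simp
    apply le_antisymm
    · refine csInf_le' ⟨ℕ → Bool, inferInstance, inferInstance, id, hcard, measurable_id, ?_⟩
      rintro φ ⟨x, hx⟩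
      exact ⟨x, fun h => hx h.symm⟩
    · apply le_csInf
      · refine ⟨_, ℕ → Bool, inferInstance, inferInstance, id, rfl, measurable_id, ?_⟩
        rintro φ ⟨x, hx⟩
        exact ⟨x, fun h => hx h.symm⟩
      · rintro κ ⟨I, hI, hI', c, rfl, hc, hd⟩
        by_cases hcount : Countable I
        · exact absurd hd (not_distinguishing c hc)
        · have e := PolishSpace.measurableEquivNatBoolOfNotCountable hcount
          rw [← hcard]
          exact (Cardinal.mk_congr e.toEquiv).ge

end Pool.Agent.Results.MP_591151_lc.FiniteVersusContinuum
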