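import Pool.Agent.H731R3.NB

/-!
# MP_bd9785_lc: Borel uniformization of complements of finitely colourable shift-graph sections

The answer to Q1 is no: there is a Borel set `B ⊆ ℕ ^ ℕ × [ℕ] ^ ℕ` all of whose sections induce
subgraphs of the shift graph with a finite Borel chromatic number, but no Borel function `f` defined
on `ℕ ^ ℕ` satisfies `(x, f x) ∉ B` for all `x`.

Let `A0` and `A1` be analytic sets with union `ℕ ^ ℕ` such that no Borel set `D` satisfies `D ⊆ A0`
and `Dᶜ ⊆ A1`. (They come from a closed game: the sets of the pairs of trees for which the first or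
the second player wins; one player copies branches of the first tree to the second one, the other
player copies branches of the second tree to the first one.) Let `A0` and `A1` be the images of
the continuous maps `φ0` and `φ1`, and let `B` be the set of the pairs `(x, y)` such that for no `z ≤ y`
is `x = φ0 z` or `x = φ1 z`. The complement of `B` is closed since `{z | z ≤ y}` is compact. If
`φ_i z = x` then no element of the section `B_x` dominates `z` everywhere, and the shift graph has a
finite Borel coloring on such a set. Finally, for a uniformizing `f` the set `D` of the `x` such that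
`x = φ0 z` for some `z ≤ f x` would be a Borel set with `D ⊆ A0` and `Dᶜ ⊆ A1`.
-/

set_option autoImplicit false

open MeasureTheory Set Filter
open scoped Topology

namespace Pool.Agent.Results.MP_bd9785_lc.NoUniformization

/-- `[ℕ]^ℕ`: the infinite subsets of `ℕ`, with the Borel structure inherited from `2 ^ ℕ`. -/
abbrev InfSets : Type := {y : Set ℕ // y.Infinite}

/-- The shift map `S(y) = y \ {min y}`. -/
noncomputable def shift (y : InfSets) : InfSets :=
  ⟨y.1 \ {sInf y.1}, y.2.sdiff (finite_singleton _)⟩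

/-- The shift graph: distinct `y` and `z` are adjacent if `z = S(y)` or `y = S(z)`. -/
def shiftGraph : SimpleGraph InfSets where
  Adj y z := y ≠ z ∧ (z = shift y ∨ y = shift z)
  symm := ⟨fun _ _ h => ⟨h.1.symm, h.2.symm⟩⟩
  loopless := ⟨fun _ h => h.1 rfl⟩

/-- The subgraph of the shift graph induced on `A` has a finite Borel chromatic number: for some
`k` there is a Borel map `c : A → {0, …, k - 1}` which takes different values at adjacent points. -/
def FiniteBorelChromatic (A : Set InfSets) : Prop :=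
  ∃ (k : ℕ) (c : A → Fin k), Measurable c ∧
    ∀ y z : A, shiftGraph.Adj (y : InfSets) (z : InfSets) → c y ≠ c z

/-! ### The game -/

open Pool.Agent.H731R3.Tame

/-- One player copies the branches of `E0` to `E1`. -/
def Sim (E0 E1 : Set (List ℕ)) : Prop :=
  ∃ R : List ℕ × List ℕ → Bool, R ([], []) = true ∧ ∀ s t, R (s, t) = true →
    ∀ i, i :: s ∈ E0 → ∃ j, j :: t ∈ E1 ∧ R (i :: s, j :: t) = true

/-- The other player copies the branches of `E1` to `E0`. -/
def Anti (E0 E1 : Set (List ℕ)) : Prop :=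
  ∃ Q : List ℕ × List ℕ → Bool, (∃ i, [i] ∈ E0 ∧ Q ([i], []) = true) ∧ ∀ s t, Q (s, t) = true →
    ∀ j, j :: t ∈ E1 → ∃ i, i :: s ∈ E0 ∧ Q (i :: s, j :: t) = true

/-- A branch of `E`. -/
def Branch (E : Set (List ℕ)) : Prop := ∃ z : ℕ → ℕ, ∀ n, z n :: br z n ∈ E

theorem br_congr {z w : ℕ → ℕ} {n : ℕ} (h : ∀ m < n, z m = w m) : br z n = br w n := by
  induction n with
  | zero => rfl
  | succ n ih => simp [br, h n (Nat.lt_succ_self n), ih fun m hm => h m (by omega)]

/-- Recursion along lists: a step that extends a list satisfying a condition depending on the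
length. -/
theorem exists_branch (P : ℕ → List ℕ → Prop) (h0 : P 0 [])
    (hs : ∀ n t, P n t → ∃ j, P (n + 1) (j :: t)) : ∃ w : ℕ → ℕ, ∀ n, P n (br w n) := by
  classical
  choose f hf using hs
  let u : ∀ n, {t : List ℕ // P n t} := fun n => Nat.rec ⟨[], h0⟩
    (fun n t => ⟨f n t.1 t.2 :: t.1, hf n t.1 t.2⟩) n
  refine ⟨fun n => f n (u n).1 (u n).2, fun n => ?_⟩
  have : ∀ n, br (fun n => f n (u n).1 (u n).2) n = (u n).1 := by
    intro n
    induction n with
    | zero => rfl
    | succ n ih => rw [br, ih]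
  rw [this n]
  exact (u n).2

theorem Sim.branch {E0 E1 : Set (List ℕ)} (h : Sim E0 E1) (hb : Branch E0) : Branch E1 := by
  obtain ⟨R, hR0, hR⟩ := h
  obtain ⟨z, hz⟩ := hb
  obtain ⟨w, hw⟩ := exists_branch
    (fun n t => R (br z n, t) = true ∧ ∀ j s, t = j :: s → t ∈ E1) ⟨hR0, by simp⟩
    (fun n t ⟨h1, _⟩ => by
      obtain ⟨j, hj, hj'⟩ := hR _ _ h1 (z n) (hz n)
      exact ⟨j, hj', fun _ _ _ => hj⟩)
  exact ⟨w, fun n => (hw (n + 1)).2 _ _ rfl⟩

theorem Anti.branch {E0 E1 : Set (List ℕ)} (h : Anti E0 E1) (hb : Branch E1) : Branch E0 := by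
  obtain ⟨Q, ⟨i, hi, hi'⟩, hQ⟩ := h
  obtain ⟨w, hw⟩ := hb
  obtain ⟨z, hz⟩ := exists_branch
    (fun n s => (n = 0 → s = []) ∧ ∀ m, n = m + 1 → Q (s, br w m) = true ∧ s ∈ E0) (by simp)
    (fun n s ⟨h0, h1⟩ => by
      rcases n with _ | n
      · obtain rfl := h0 rfl
        refine ⟨i, by simp, ?_⟩
        rintro m hm
        obtain rfl : m = 0 := by omega
        exact ⟨hi', hi⟩
      · obtain ⟨h2, h3⟩ := h1 n rfl
        obtain ⟨j, hj, hj'⟩ := hQ _ _ h2 (w n) (hw n)
        refine ⟨j, by simp, ?_⟩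
        rintro m hm
        obtain rfl : m = n + 1 := by omega
        exact ⟨hj', hj⟩)
  exact ⟨z, fun n => ((hz (n + 1)).2 n rfl).2⟩

theorem sim_or_anti (E0 E1 : Set (List ℕ)) : Sim E0 E1 ∨ Anti E0 E1 := by
  classical
  let cl : Set (List ℕ × List ℕ) → Prop := fun R => ∀ s t, (s, t) ∈ R →
    ∀ i, i :: s ∈ E0 → ∃ j, j :: t ∈ E1 ∧ (i :: s, j :: t) ∈ R
  let Good : Set (List ℕ × List ℕ) := {p | ∃ R, cl R ∧ p ∈ R}
  have hG : cl Good := by
    rintro s t ⟨R, hR, hst⟩ i hi
    obtain ⟨j, hj, hj'⟩ := hR s t hst i hi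
    exact ⟨j, hj, R, hR, hj'⟩
  have key : ∀ s t, (s, t) ∉ Good → ∃ i, i :: s ∈ E0 ∧ ∀ j, j :: t ∈ E1 →
      (i :: s, j :: t) ∉ Good := by
    intro s t hst
    by_contra hcon
    push Not at hcon
    apply hst
    refine ⟨insert (s, t) Good, ?_, mem_insert _ _⟩
    rintro s' t' h i hi
    rcases h with h | h
    · obtain ⟨rfl, rfl⟩ : s' = s ∧ t' = t := by simpa using h
      obtain ⟨j, hj, hj'⟩ := hcon i hi
      exact ⟨j, hj, mem_insert_of_mem _ hj'⟩
    · obtain ⟨j, hj, hj'⟩ := hG s' t' h i hi
      exact ⟨j, hj, mem_insert_of_mem _ hj'⟩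
  by_cases h : (([], []) : List ℕ × List ℕ) ∈ Good
  · left
    refine ⟨fun p => decide (p ∈ Good), by simpa using h, ?_⟩
    intro s t hst i hi
    obtain ⟨j, hj, hj'⟩ := hG s t (by simpa using hst) i hi
    exact ⟨j, hj, by simpa using hj'⟩
  · right
    refine ⟨fun p => decide (∀ j, j :: p.2 ∈ E1 → (p.1, j :: p.2) ∉ Good), ?_, ?_⟩
    · obtain ⟨i, hi, hi'⟩ := key _ _ h
      exact ⟨i, hi, by simpa using hi'⟩
    · intro s t hst j hj
      have h1 : ∀ j, j :: t ∈ E1 → (s, j :: t) ∉ Good := by simpa using hst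
      obtain ⟨i, hi, hi'⟩ := key _ _ (h1 j hj)
      exact ⟨i, hi, by simpa using hi'⟩

/-! ### Two analytic sets -/

/-- The tree of attempts to prove `Wu c y`. -/
def Tre (c y : ℕ → ℕ) : Set (List ℕ) :=
  {s | c (Encodable.encode (([], []) : List ℕ × List ℕ)) = 1 ∧
    c (Encodable.encode (br y s.length, s)) = 1}

theorem branch_tre (c y : ℕ → ℕ) : Branch (Tre c y) ↔ Wu c y := by
  constructor
  · rintro ⟨z, hz⟩
    refine ⟨z, fun n => ?_⟩
    rcases n with _ | n
    · exact (hz 0).1
    · have := (hz n).2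
      simpa [br] using this
  · rintro ⟨z, hz⟩
    refine ⟨z, fun n => ⟨hz 0, ?_⟩⟩
    have := hz (n + 1)
    simpa [br] using this

/-- The even part. -/
def ev (y : ℕ → ℕ) : ℕ → ℕ := fun n => y (2 * n)

/-- The odd part. -/
def od (y : ℕ → ℕ) : ℕ → ℕ := fun n => y (2 * n + 1)

theorem measurable_tre {c : (ℕ → ℕ) → ℕ → ℕ} (hc : Measurable c) (s : List ℕ) :
    Measurable fun y : ℕ → ℕ => s ∈ Tre (c y) y := by
  have h : (fun y : ℕ → ℕ => s ∈ Tre (c y) y) = fun y : ℕ → ℕ =>
      c y (Encodable.encode (([], []) : List ℕ × List ℕ)) = 1 ∧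
      ∃ t : List ℕ, br y s.length = t ∧ c y (Encodable.encode (t, s)) = 1 := by
    funext y
    simp [Tre]
  rw [h]
  have h1 : ∀ n, Measurable fun y : ℕ → ℕ => c y n = 1 := fun n =>
    measurableSet_setOfPred.1 ((measurable_pi_apply n).comp hc (measurableSet_singleton 1))
  exact (h1 _).and (Measurable.exists fun t =>
    (measurableSet_setOfPred.1 (measurable_br _ t)).and (h1 _))

theorem measurable_ev : Measurable ev := measurable_pi_iff.2 fun _ => measurable_pi_apply _
theorem measurable_od : Measurable od := measurable_pi_iff.2 fun _ => measurable_pi_apply _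

theorem measurable_coord (q : List ℕ × List ℕ) :
    Measurable fun p : (ℕ → ℕ) × (List ℕ × List ℕ → Bool) => p.2 q = true := by
  have h : Measurable fun p : (ℕ → ℕ) × (List ℕ × List ℕ → Bool) => p.2 q :=
    (measurable_pi_apply q).comp measurable_snd
  exact measurableSet_setOfPred.1 (h (measurableSet_singleton true))

theorem analytic_sim : AnalyticSet {y : ℕ → ℕ | Sim (Tre (ev y) y) (Tre (od y) y)} := by
  have h0 : ∀ s, Measurable fun p : (ℕ → ℕ) × (List ℕ × List ℕ → Bool) =>
    s ∈ Tre (ev p.1) p.1 := fun s => (measurable_tre measurable_ev s).comp measurable_fst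
  have h1 : ∀ s, Measurable fun p : (ℕ → ℕ) × (List ℕ × List ℕ → Bool) =>
    s ∈ Tre (od p.1) p.1 := fun s => (measurable_tre measurable_od s).comp measurable_fst
  have h2 := measurable_coord
  have h3 : Measurable fun p : (ℕ → ℕ) × (List ℕ × List ℕ → Bool) =>
      p.2 ([], []) = true ∧ ∀ s t, p.2 (s, t) = true →
      ∀ i, i :: s ∈ Tre (ev p.1) p.1 → ∃ j, j :: t ∈ Tre (od p.1) p.1 ∧
        p.2 (i :: s, j :: t) = true :=
    (h2 _).and (Measurable.forall fun s => Measurable.forall fun t => (h2 _).imp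
      (Measurable.forall fun i => (h0 _).imp (Measurable.exists fun j => (h1 _).and (h2 _))))
  have h4 := (measurableSet_setOfPred.2 h3).analyticSet_image measurable_fst
  convert h4 using 1
  ext y
  constructor
  · rintro ⟨R, hR⟩
    exact ⟨(y, R), hR, rfl⟩
  · rintro ⟨⟨y', R⟩, hR, rfl⟩
    exact ⟨R, hR⟩

theorem analytic_anti : AnalyticSet {y : ℕ → ℕ | Anti (Tre (ev y) y) (Tre (od y) y)} := by
  have h0 : ∀ s, Measurable fun p : (ℕ → ℕ) × (List ℕ × List ℕ → Bool) =>
    s ∈ Tre (ev p.1) p.1 := fun s => (measurable_tre measurable_ev s).comp measurable_fst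
  have h1 : ∀ s, Measurable fun p : (ℕ → ℕ) × (List ℕ × List ℕ → Bool) =>
    s ∈ Tre (od p.1) p.1 := fun s => (measurable_tre measurable_od s).comp measurable_fst
  have h2 := measurable_coord
  have h3 : Measurable fun p : (ℕ → ℕ) × (List ℕ × List ℕ → Bool) =>
      (∃ i, [i] ∈ Tre (ev p.1) p.1 ∧ p.2 ([i], []) = true) ∧ ∀ s t, p.2 (s, t) = true →
      ∀ j, j :: t ∈ Tre (od p.1) p.1 → ∃ i, i :: s ∈ Tre (ev p.1) p.1 ∧
        p.2 (i :: s, j :: t) = true :=
    (Measurable.exists fun i => (h0 _).and (h2 _)).and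
      (Measurable.forall fun s => Measurable.forall fun t => (h2 _).imp
      (Measurable.forall fun i => (h1 _).imp (Measurable.exists fun j => (h0 _).and (h2 _))))
  have h4 := (measurableSet_setOfPred.2 h3).analyticSet_image measurable_fst
  convert h4 using 1
  ext y
  constructor
  · rintro ⟨R, hR⟩
    exact ⟨(y, R), hR, rfl⟩
  · rintro ⟨⟨y', R⟩, hR, rfl⟩
    exact ⟨R, hR⟩

/-- The two analytic sets cover the Baire space, but they do not contain two complementary
Borel sets. -/
theorem not_separated (D : Set (ℕ → ℕ)) (hD : MeasurableSet D)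
    (h0 : ∀ y ∈ D, Anti (Tre (ev y) y) (Tre (od y) y))
    (h1 : ∀ y ∉ D, Sim (Tre (ev y) y) (Tre (od y) y)) : False := by
  obtain ⟨c0, hc0⟩ := universal _ hD.compl.analyticSet
  obtain ⟨c1, hc1⟩ := universal _ hD.analyticSet
  let y : ℕ → ℕ := fun n => if n % 2 = 0 then c0 (n / 2) else c1 (n / 2)
  have hev : ev y = c0 := by
    funext n
    simp [ev, y]
  have hod : od y = c1 := by
    funext n
    have h2 : (2 * n + 1) % 2 = 1 := by omega
    have h3 : (2 * n + 1) / 2 = n := by omega
    simp [od, y, h2, h3]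
  have h0' := h0 y
  have h1' := h1 y
  rw [hev, hod] at h0' h1'
  by_cases hy : y ∈ D
  · have h2 := (branch_tre c0 y).1 ((h0' hy).branch ((branch_tre c1 y).2 ((hc1 y).1 hy)))
    exact ((hc0 y).2 h2) hy
  · have h2 := (branch_tre c1 y).1 ((h1' hy).branch ((branch_tre c0 y).2 ((hc0 y).1 hy)))
    exact hy ((hc1 y).2 h2)

/-! ### The enumeration of an infinite set -/

/-- The increasing enumeration of an infinite set. -/
noncomputable def enu (y : InfSets) (n : ℕ) : ℕ := Nat.nth (· ∈ y.1) n

theorem enu_strictMono (y : InfSets) : StrictMono (enu y) :=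
  Nat.nth_strictMono y.2

theorem measurable_mem (n : ℕ) : Measurable fun y : InfSets => n ∈ y.1 := by
  have h : Measurable fun s : Set ℕ => n ∈ s := measurable_set_mem n
  exact h.comp measurable_subtype_coe

open Classical in
theorem measurable_count (m : ℕ) : Measurable fun y : InfSets => Nat.count (· ∈ y.1) m := by
  induction m with
  | zero => simp
  | succ m ih =>
    simp only [Nat.count_succ]
    exact ih.add (Measurable.ite (measurableSet_setOfPred.2 (measurable_mem m)) measurable_const
      measurable_const)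

theorem measurable_enu : Measurable enu := by
  classical
  refine measurable_pi_iff.2 fun n => measurable_to_countable' fun m => ?_
  have h : (fun y : InfSets => enu y n) ⁻¹' {m} =
      {y : InfSets | m ∈ y.1 ∧ Nat.count (· ∈ y.1) m = n} := by
    ext y
    simp only [mem_preimage, mem_singleton_iff, mem_ofPred_eq, enu]
    constructor
    · rintro rfl
      exact ⟨Nat.nth_mem_of_infinite (p := (· ∈ y.1)) y.2 n,
        Nat.count_nth_of_infinite (p := (· ∈ y.1)) y.2 n⟩
    · rintro ⟨h1, rfl⟩
      exact Nat.nth_count (p := (· ∈ y.1)) h1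
  rw [h]
  exact (measurableSet_setOfPred.2 (measurable_mem m)).inter
    (measurableSet_eq_fun (measurable_count m) measurable_const)

theorem enu_shift (y : InfSets) (n : ℕ) : enu (shift y) n = enu y (n + 1) := by
  have h1 : StrictMono (fun n => enu y (n + 1)) := fun a b hab =>
    enu_strictMono y (by omega)
  have h2 : range (enu (shift y)) = range (fun n => enu y (n + 1)) := by
    have h3 : range (enu (shift y)) = (shift y).1 := Nat.range_nth_of_infinite (shift y).2
    have h4 : range (enu y) = y.1 := Nat.range_nth_of_infinite y.2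
    have h5 : enu y 0 = sInf y.1 := Nat.nth_zero
    rw [h3]
    change y.1 \ {sInf y.1} = _
    rw [← h5]
    ext k
    constructor
    · rintro ⟨hk, hk'⟩
      rw [← h4] at hk
      obtain ⟨i, rfl⟩ := hk
      rcases i with _ | i
      · exact absurd rfl hk'
      · exact ⟨i, rfl⟩
    · rintro ⟨i, rfl⟩
      refine ⟨?_, ?_⟩
      · rw [← h4]; exact ⟨i + 1, rfl⟩
      · intro h
        have : enu y (i + 1) = enu y 0 := h
        have := (enu_strictMono y).injective this
        omega
  exact congrFun ((StrictMono.range_inj (enu_strictMono _) h1).1 h2) n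

/-! ### Sets of sequences which are not dominating have finite colorings -/

/-- The shift of a sequence. -/
def sh (y : ℕ → ℕ) : ℕ → ℕ := fun n => y (n + 1)

/-- The first time at which `p` holds exists and is even. -/
def Par (p : ℕ → (ℕ → ℕ) → Prop) (y : ℕ → ℕ) : Prop :=
  ∃ n, Even n ∧ p n y ∧ ∀ i < n, ¬ p i y

theorem par_sh (p : ℕ → (ℕ → ℕ) → Prop) (y : ℕ → ℕ) (h0 : ¬ p 0 y) (h1 : ∃ n, p n y)
    (h : ∀ n, p (n + 1) y ↔ p n (sh y)) : Par p y ↔ ¬ Par p (sh y) := by
  classical
  obtain ⟨n, hn, hn'⟩ : ∃ n, p n y ∧ ∀ i < n, ¬ p i y :=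
    ⟨Nat.find h1, Nat.find_spec h1, fun i hi => Nat.find_min h1 hi⟩
  obtain ⟨n, rfl⟩ : ∃ m, n = m + 1 := Nat.exists_eq_succ_of_ne_zero (by rintro rfl; exact h0 hn)
  have h2 : p n (sh y) := (h n).1 hn
  have h3 : ∀ i < n, ¬ p i (sh y) := fun i hi h4 => hn' (i + 1) (by omega) ((h i).2 h4)
  have h4 : Par p y ↔ Even (n + 1) := by
    constructor
    · rintro ⟨m, hm, hm', hm''⟩
      have : m = n + 1 := by
        rcases lt_trichotomy m (n + 1) with h | h | h
        · exact absurd hm' (hn' m h)
        · exact h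
        · exact absurd hn (hm'' _ h)
      rwa [this] at hm
    · intro h; exact ⟨_, h, hn, hn'⟩
  have h5 : Par p (sh y) ↔ Even n := by
    constructor
    · rintro ⟨m, hm, hm', hm''⟩
      have : m = n := by
        rcases lt_trichotomy m n with h | h | h
        · exact absurd hm' (h3 m h)
        · exact h
        · exact absurd h2 (hm'' _ h)
      rwa [this] at hm
    · intro h; exact ⟨_, h, h2, h3⟩
  rw [h4, h5]
  exact Nat.even_add_one

theorem measurable_par {p : ℕ → (ℕ → ℕ) → Prop} (hp : ∀ n, Measurable (p n)) :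
    Measurable (Par p) := by
  refine Measurable.exists fun n => ?_
  exact measurable_const.and ((hp n).and (Measurable.forall fun i => measurable_const.imp
    (hp i).not))

section Color

variable (z : ℕ → ℕ)

/-- The level of a natural number. -/
noncomputable def lev (m : ℕ) : ℕ := by
  classical
  exact Nat.findGreatest (fun j => z (2 * j) ≤ m) m

theorem lev_mono {m m' : ℕ} (h : m ≤ m') : lev z m ≤ lev z m' := by
  classical
  exact Nat.findGreatest_mono (fun j hj => hj.trans h) h

theorem le_lev {j m : ℕ} (h : z (2 * j) ≤ m) (h' : j ≤ m) : j ≤ lev z m := by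
  classical
  exact Nat.le_findGreatest h' h

theorem lev_spec {m : ℕ} (h : lev z m ≠ 0) : z (2 * lev z m) ≤ m := by
  classical
  exact Nat.findGreatest_of_ne_zero (P := fun j => z (2 * j) ≤ m) rfl h

/-- The `n`-th and the next element are on the same level. -/
def same (n : ℕ) (y : ℕ → ℕ) : Prop := lev z (y n) = lev z (y (n + 1))

/-- The `n`-th and the next element are on different levels. -/
def diff (n : ℕ) (y : ℕ → ℕ) : Prop := ¬ same z n y

/-- The `n`-th shift dominates `z`. -/
def dom (n : ℕ) (y : ℕ → ℕ) : Prop := ∀ m, z m ≤ y (n + m)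

/-- Infinitely many elements are on the same level as the next one. -/
def inf (y : ℕ → ℕ) : Prop := ∀ N, ∃ n, N ≤ n ∧ same z n y

theorem inf_sh (y : ℕ → ℕ) : inf z (sh y) ↔ inf z y := by
  constructor
  · intro h N
    obtain ⟨n, hn, hn'⟩ := h N
    exact ⟨n + 1, by omega, hn'⟩
  · intro h N
    obtain ⟨n, hn, hn'⟩ := h (N + 1)
    obtain ⟨n, rfl⟩ : ∃ m, n = m + 1 := ⟨n - 1, by omega⟩
    exact ⟨n, by omega, hn'⟩

open Classical in
/-- The coloring. -/
noncomputable def col (y : ℕ → ℕ) : Fin 6 :=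
  if inf z y then
    (if same z 0 y then (if Par (diff z) y then 0 else 1) else (if Par (same z) y then 2 else 3))
  else (if Par (dom z) y then 4 else 5)

theorem measurable_same (n : ℕ) : Measurable (same z n) := by
  have h1 : ∀ n, Measurable fun y : ℕ → ℕ => lev z (y n) := fun n =>
    (measurable_of_countable (lev z)).comp (measurable_pi_apply n)
  exact measurableSet_setOfPred.1 (measurableSet_eq_fun (h1 n) (h1 (n + 1)))

theorem measurable_dom (n : ℕ) : Measurable (dom z n) := by
  refine Measurable.forall fun m => ?_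
  exact measurableSet_setOfPred.1 (measurableSet_le measurable_const (measurable_pi_apply _))

theorem measurable_col : Measurable (col z) := by
  have hs := measurable_same z
  have h1 : Measurable (inf z) :=
    Measurable.forall fun N => Measurable.exists fun n => measurable_const.and (hs n)
  refine Measurable.ite (measurableSet_setOfPred.2 h1) ?_ ?_
  · refine Measurable.ite (measurableSet_setOfPred.2 (hs 0)) ?_ ?_
    · exact Measurable.ite (measurableSet_setOfPred.2 (measurable_par fun n => (hs n).not))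
        measurable_const measurable_const
    · exact Measurable.ite (measurableSet_setOfPred.2 (measurable_par hs))
        measurable_const measurable_const
  · exact Measurable.ite (measurableSet_setOfPred.2 (measurable_par (measurable_dom z)))
        measurable_const measurable_const

theorem exists_diff (y : ℕ → ℕ) (hy : StrictMono y) : ∃ n, diff z n y := by
  by_contra hcon
  push Not at hcon
  have h1 : ∀ n, lev z (y n) = lev z (y 0) := by
    intro n
    induction n with
    | zero => rfl
    | succ n ih =>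
      have h2 : same z n y := not_not.1 (hcon n)
      rw [← ih]; exact h2.symm
  have h2 := le_lev z (j := lev z (y 0) + 1) (m := y (max (z (2 * (lev z (y 0) + 1))) (lev z (y 0) + 1)))
    ((le_max_left _ _).trans (hy.id_le _)) ((le_max_right _ _).trans (hy.id_le _))
  have h3 := h1 (max (z (2 * (lev z (y 0) + 1))) (lev z (y 0) + 1))
  omega

theorem exists_dom (hz : Monotone z) (y : ℕ → ℕ) (hy : StrictMono y) (h : ¬ inf z y) :
    ∃ n, dom z n y := by
  unfold inf at h
  push Not at h
  obtain ⟨N, hN⟩ := h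
  have h1 : ∀ i, i ≤ lev z (y (N + i)) := by
    intro i
    induction i with
    | zero => exact Nat.zero_le _
    | succ i ih =>
      have h2 : ¬ lev z (y (N + i)) = lev z (y (N + i + 1)) := hN (N + i) (by omega)
      have h3 : lev z (y (N + i)) ≤ lev z (y (N + i + 1)) := lev_mono z (hy.monotone (by omega))
      have h4 : N + (i + 1) = N + i + 1 := by omega
      rw [h4]
      omega
  have h2 : ∀ n, 2 * N + 1 ≤ n → z n ≤ y n := by
    intro n hn
    obtain ⟨i, rfl⟩ : ∃ i, n = N + i := ⟨n - N, by omega⟩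
    have h3 := h1 i
    have h4 : lev z (y (N + i)) ≠ 0 := by omega
    exact (hz (by omega : N + i ≤ 2 * lev z (y (N + i)))).trans (lev_spec z h4)
  refine ⟨z (2 * N + 1), fun m => ?_⟩
  rcases le_or_gt (2 * N + 1) m with hm | hm
  · exact (h2 m hm).trans (hy.monotone (by omega))
  · have h3 := hy.id_le (z (2 * N + 1) + m)
    simp only [id] at h3
    have h4 := hz hm.le
    omega

theorem col_sh (hz : Monotone z) (y : ℕ → ℕ) (hy : StrictMono y) (h : ∃ n, y n < z n) :
    col z y ≠ col z (sh y) := by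
  have h0 : ¬ dom z 0 y := by
    obtain ⟨n, hn⟩ := h
    intro h1
    have := h1 n
    rw [zero_add] at this
    omega
  unfold col
  by_cases hi : inf z y
  · rw [if_pos hi, if_pos ((inf_sh z y).2 hi)]
    by_cases h1 : same z 0 y
    · rw [if_pos h1]
      by_cases h2 : same z 0 (sh y)
      · rw [if_pos h2]
        have h3 := par_sh (diff z) y (fun h => h h1) (exists_diff z y hy) (fun n => Iff.rfl)
        by_cases h4 : Par (diff z) (sh y)
        · rw [if_neg (fun h => h3.1 h h4), if_pos h4]; decide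
        · rw [if_pos (h3.2 h4), if_neg h4]; decide
      · rw [if_neg h2]
        split_ifs <;> decide
    · rw [if_neg h1]
      by_cases h2 : same z 0 (sh y)
      · rw [if_pos h2]
        split_ifs <;> decide
      · rw [if_neg h2]
        have h3 := par_sh (same z) y h1 (by obtain ⟨n, -, hn⟩ := hi 0; exact ⟨n, hn⟩)
          (fun n => Iff.rfl)
        by_cases h4 : Par (same z) (sh y)
        · rw [if_neg (fun h => h3.1 h h4), if_pos h4]; decide
        · rw [if_pos (h3.2 h4), if_neg h4]; decide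
  · rw [if_neg hi, if_neg (fun h => hi ((inf_sh z y).1 h))]
    have h3 := par_sh (dom z) y h0 (exists_dom z hz y hy hi) (fun n => by
      simp only [dom, sh]
      refine forall_congr' fun m => ?_
      rw [show n + 1 + m = n + m + 1 by omega])
    by_cases h4 : Par (dom z) (sh y)
    · rw [if_neg (fun h => h3.1 h h4), if_pos h4]; decide
    · rw [if_pos (h3.2 h4), if_neg h4]; decide

end Color

/-- If each element of `A` fails to dominate `z`, then the graph on `A` has a finite Borel
chromatic number. -/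
theorem finite_chromatic (A : Set InfSets) (z : ℕ → ℕ) (h : ∀ y ∈ A, ∃ n, enu y n < z n) :
    FiniteBorelChromatic A := by
  let z' : ℕ → ℕ := fun n => ∑ i ∈ Finset.range (n + 1), z i
  have hz' : Monotone z' := by
    intro a b hab
    exact Finset.sum_le_sum_of_subset (Finset.range_mono (by omega))
  have hle : ∀ n, z n ≤ z' n := fun n =>
    Finset.single_le_sum (f := z) (fun _ _ => Nat.zero_le _) (Finset.self_mem_range_succ n)
  refine ⟨6, fun y => col z' (enu y.1), (measurable_col z').comp
    (measurable_enu.comp measurable_subtype_coe), ?_⟩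
  have key : ∀ y z : A, (z : InfSets) = shift y → col z' (enu y.1) ≠ col z' (enu z.1) := by
    intro y z hyz
    have h1 : enu z.1 = sh (enu y.1) := by
      funext n
      rw [hyz, enu_shift]; rfl
    rw [h1]
    obtain ⟨n, hn⟩ := h y.1 y.2
    exact col_sh z' hz' _ (enu_strictMono _) ⟨n, hn.trans_le (hle n)⟩
  rintro y w ⟨-, h1 | h1⟩
  · exact key y w h1
  · exact (key w y h1).symm

/-! ### The Borel set -/

theorem isClosed_dom {φ : (ℕ → ℕ) → ℕ → ℕ} (hφ : Continuous φ) :
    IsClosed {p : (ℕ → ℕ) × (ℕ → ℕ) | ∃ z : ℕ → ℕ, (∀ n, z n ≤ p.2 n) ∧ φ z = p.1} := by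
  apply IsSeqClosed.isClosed
  intro u p hu hp
  choose z hz hz' using hu
  rw [nhds_prod_eq] at hp
  have hp1 : Tendsto (fun k => (u k).1) atTop (𝓝 p.1) := tendsto_fst.comp hp
  have hp2 : Tendsto (fun k => (u k).2) atTop (𝓝 p.2) := tendsto_snd.comp hp
  rw [tendsto_pi_nhds] at hp2
  have hb : ∀ n, ∃ b : ℕ, ∀ k, (u k).2 n ≤ b := by
    intro n
    obtain ⟨b, hb⟩ := (hp2 n).bddAbove_range
    exact ⟨b, fun k => hb ⟨k, rfl⟩⟩
  choose b hb using hb
  have hK : IsCompact (Set.pi univ fun n => Iic (b n)) :=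
    isCompact_univ_pi fun n => (finite_Iic (b n)).isCompact
  obtain ⟨w, -, ψ, hψ, hw⟩ := hK.tendsto_subseq (x := z) (fun k => by
    intro n _
    exact (hz k n).trans (hb n k))
  refine ⟨w, ?_, ?_⟩
  · intro n
    have h1 := (tendsto_pi_nhds.1 hw) n
    have h2 := (hp2 n).comp hψ.tendsto_atTop
    exact le_of_tendsto_of_tendsto' h1 h2 fun k => hz _ n
  · have h1 := (hφ.tendsto w).comp hw
    have h2 := hp1.comp hψ.tendsto_atTop
    have h3 : (φ ∘ z ∘ ψ) = ((fun k => (u k).1) ∘ ψ) := by
      funext k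
      exact hz' (ψ k)
    rw [h3] at h1
    exact tendsto_nhds_unique h1 h2

/-- **MP_bd9785_lc, Q1**, answered in the negative: there is a Borel set `B ⊆ ℕ ^ ℕ × [ℕ] ^ ℕ` such
that for each `x` the subgraph of the shift graph induced on the section `B_x` has a finite Borel
chromatic number, but the complement of `B` has no full Borel uniformization. -/
theorem result : ∃ B : Set ((ℕ → ℕ) × InfSets), MeasurableSet B ∧
    (∀ x, FiniteBorelChromatic {y | (x, y) ∈ B}) ∧
    ¬ ∃ f : (ℕ → ℕ) → InfSets, Measurable f ∧ ∀ x, (x, f x) ∉ B := by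
  have ha0 := analytic_anti
  have ha1 := analytic_sim
  rw [AnalyticSet] at ha0 ha1
  have hcov : ∀ y : ℕ → ℕ, y ∉ {y : ℕ → ℕ | Anti (Tre (ev y) y) (Tre (od y) y)} →
      y ∈ {y : ℕ → ℕ | Sim (Tre (ev y) y) (Tre (od y) y)} := fun y hy =>
    (sim_or_anti _ _).resolve_right hy
  obtain ⟨φ0, hφ0, hr0⟩ : ∃ f : (ℕ → ℕ) → ℕ → ℕ, Continuous f ∧
      range f = {y : ℕ → ℕ | Anti (Tre (ev y) y) (Tre (od y) y)} := by
    refine ha0.resolve_left fun h => ?_
    refine not_separated ∅ MeasurableSet.empty (fun y hy => hy.elim) fun y _ => hcov y ?_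
    rw [h]; exact notMem_empty y
  obtain ⟨φ1, hφ1, hr1⟩ : ∃ f : (ℕ → ℕ) → ℕ → ℕ, Continuous f ∧
      range f = {y : ℕ → ℕ | Sim (Tre (ev y) y) (Tre (od y) y)} := by
    refine ha1.resolve_left fun h => ?_
    refine not_separated univ MeasurableSet.univ (fun y _ => ?_) fun y hy => (hy (mem_univ y)).elim
    by_contra h'
    have := hcov y h'
    rw [h] at this
    exact this
  have hm : ∀ φ : (ℕ → ℕ) → ℕ → ℕ, Continuous φ → MeasurableSet
      {p : (ℕ → ℕ) × (ℕ → ℕ) | ∃ z : ℕ → ℕ, (∀ n, z n ≤ p.2 n) ∧ φ z = p.1} :=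
    fun φ hφ => (isClosed_dom hφ).measurableSet
  have hcov' : ∀ x, ∃ z, φ0 z = x ∨ φ1 z = x := by
    intro x
    by_cases h : x ∈ range φ0
    · obtain ⟨z, hz⟩ := h
      exact ⟨z, Or.inl hz⟩
    · rw [hr0] at h
      have h2 := hcov x h
      rw [← hr1] at h2
      obtain ⟨z, hz⟩ := h2
      exact ⟨z, Or.inr hz⟩
  refine ⟨{p | ¬ ∃ z : ℕ → ℕ, (∀ n, z n ≤ enu p.2 n) ∧ (φ0 z = p.1 ∨ φ1 z = p.1)}, ?_, ?_, ?_⟩
  · have h1 : Measurable fun p : (ℕ → ℕ) × InfSets => (p.1, enu p.2) :=
      measurable_fst.prodMk (measurable_enu.comp measurable_snd)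
    have h2 := (h1 (hm φ0 hφ0)).union (h1 (hm φ1 hφ1))
    convert h2.compl using 1
    ext p
    simp only [mem_ofPred_eq, mem_compl_iff, mem_union, mem_preimage]
    apply not_congr
    constructor
    · rintro ⟨z, hz, h | h⟩
      · exact Or.inl ⟨z, hz, h⟩
      · exact Or.inr ⟨z, hz, h⟩
    · rintro (⟨z, hz, h⟩ | ⟨z, hz, h⟩)
      · exact ⟨z, hz, Or.inl h⟩
      · exact ⟨z, hz, Or.inr h⟩
  · intro x
    obtain ⟨z, hz⟩ := hcov' x
    refine finite_chromatic _ z fun y hy => ?_
    by_contra hcon
    push Not at hcon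
    exact hy ⟨z, hcon, hz⟩
  · rintro ⟨f, hf, hfB⟩
    have hf' : ∀ x, ∃ z : ℕ → ℕ, (∀ n, z n ≤ enu (f x) n) ∧ (φ0 z = x ∨ φ1 z = x) :=
      fun x => not_not.1 (hfB x)
    have h1 : Measurable fun x : ℕ → ℕ => (x, enu (f x)) :=
      measurable_id.prodMk (measurable_enu.comp hf)
    refine not_separated _ (h1 (hm φ0 hφ0)) ?_ ?_
    · rintro y ⟨z, -, hz⟩
      have : y ∈ range φ0 := ⟨z, hz⟩
      rw [hr0] at this
      exact this
    · intro y hy
      obtain ⟨z, hz, h | h⟩ := hf' y
      · exact absurd ⟨z, hz, h⟩ hy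
      · have : y ∈ range φ1 := ⟨z, h⟩
        rw [hr1] at this
        exact this

end Pool.Agent.Results.MP_bd9785_lc.NoUniformization
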